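import Pool.Agent.V1121.BP.Main

set_option autoImplicit false

/-!
# Billey-Postnikov decompositions are closed under intersection and union

For every Coxeter system (of finite or infinite rank) and every `w`, the family `BP(w)` of those
`J` for which `w = w^J w_J` is a Billey-Postnikov decomposition is closed under intersection
and union.
-/

namespace Pool.Agent.Results.MP_330ad9_al.UnionInter

variable {B : Type*} {M : CoxeterMatrix B} {W : Type*} [Group W]

/-- The standard parabolic subgroup `W_J` generated by the simple reflections indexed by `J`. -/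
def WJ (cs : CoxeterSystem M W) (J : Set B) : Subgroup W := Subgroup.closure (cs.simple '' J)

/-- `W^J`: the elements `v` with `ℓ(v s) > ℓ(v)` for all `s ∈ J`. -/
def minReps (cs : CoxeterSystem M W) (J : Set B) : Set W :=
  {v | ∀ j ∈ J, cs.length v < cs.length (v * cs.simple j)}

/-- The support of `v`: the simple reflections which occur in some reduced word of `v`. -/
def supp (cs : CoxeterSystem M W) (v : W) : Set B :=
  {i | ∃ ω : List B, cs.IsReduced ω ∧ cs.wordProd ω = v ∧ i ∈ ω}

/-- The left descent set `D_L(u)`. -/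
def leftDescents (cs : CoxeterSystem M W) (u : W) : Set B :=
  {i | cs.length (cs.simple i * u) < cs.length u}

/-- `J ∈ BP(w)`: the parabolic factorisation `w = v u` with `v ∈ W^J`, `u ∈ W_J` satisfies
`supp(v) ∩ J ⊆ D_L(u)`. -/
def IsBP (cs : CoxeterSystem M W) (w : W) (J : Set B) : Prop :=
  ∃ v u : W, v ∈ minReps cs J ∧ u ∈ WJ cs J ∧ w = v * u ∧ supp cs v ∩ J ⊆ leftDescents cs u

/-- Every `w` has exactly one factorisation `w = v u` with `v ∈ W^J`, `u ∈ W_J`, so `IsBP`
speaks of the factorisation `w = w^J w_J`. -/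
theorem existsUnique_factorisation (cs : CoxeterSystem M W) (w : W) (J : Set B) :
    ∃! p : W × W, p.1 ∈ minReps cs J ∧ p.2 ∈ WJ cs J ∧ w = p.1 * p.2 := by
  obtain ⟨v, u, hv, hu, he⟩ := V1121.BP.exists_fact cs J w
  refine ⟨(v, u), ⟨hv, hu, he⟩, ?_⟩
  rintro ⟨v', u'⟩ ⟨hv', hu', he'⟩
  have hv1 : V1121.BP.Mr cs J v' := hv'
  have hu1 : u' ∈ V1121.BP.WJ cs J := hu'
  simp only at he'
  have h1 : V1121.BP.Suf cs u' u := hv.max hu hu1 ⟨v', by rw [← he, he'], by
    rw [← he, he', hv1.add hu1]⟩
  have h2 : V1121.BP.Suf cs u u' := hv1.max hu1 hu ⟨v, by rw [← he', he], by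
    rw [← he', he, hv.add hu]⟩
  have h3 : u' = u := h1.eq_of_len h2.len
  have h4 : v' = v := by
    rw [h3, he] at he'
    exact (mul_right_cancel he').symm
  rw [h3, h4]

lemma isBP_iff (cs : CoxeterSystem M W) (w : W) (J : Set B) :
    IsBP cs w J ↔ V1121.BP.BPd cs w J := by
  constructor
  · rintro ⟨v, u, h1, h2, h3, h4⟩
    exact ⟨v, u, h1, h2, h3, fun j hj hs => h4 ⟨hs, hj⟩⟩
  · rintro ⟨v, u, h1, h2, h3, h4⟩
    exact ⟨v, u, h1, h2, h3, fun j hj => h4 j hj.2 hj.1⟩

/-- **Answer to Q1**: `BP(w)` is closed under intersection and union, for every Coxeter system. -/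
theorem result {B : Type*} {M : CoxeterMatrix B} {W : Type*} [Group W]
    (cs : CoxeterSystem M W) (w : W) (J K : Set B) (hJ : IsBP cs w J) (hK : IsBP cs w K) :
    IsBP cs w (J ∩ K) ∧ IsBP cs w (J ∪ K) := by
  rw [isBP_iff] at hJ hK ⊢
  rw [isBP_iff]
  exact V1121.BP.main cs w J K hJ hK

end Pool.Agent.Results.MP_330ad9_al.UnionInter
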